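import Pool.Agent.MWKP.Stmts

/-!
# MWKP row FIN (MP_23468a_al)
-/

set_option autoImplicit false

namespace Pool.Agent.MWKP.H50

open Pool.Agent.Helper14_MV Pool.Agent.Helper2_MV Pool.Agent.MWK Pool.Agent.MWKP

theorem df_congr {n a b a' b' : ℕ} (h1 : a ≡ a' [MOD n]) (h2 : b ≡ b' [MOD n]) :
    df n a b ≡ df n a' b' [MOD n] := h1.add (h2.mul_left (n - 1))

theorem core (hTGN : TgnStmt) (hADJ : AdjStmt) (hDAT : DatStmt) {n : ℕ} {θ : FIC} (hK : Kn n θ)
    {M : ℕ} (hWF : WF M θ) {u v : List ℕ} (hAg : Ag (FF M v) u v)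
    (hWT : ∀ x, WT (df n (u.count x) (v.count x)) θ)
    (hWR : ∀ k y x, k < M → Dp (k + 1) v y →
      WR k (df n ((pre u y).count x) ((pre v y).count x)) θ) : RR θ u v := by
  obtain ⟨u', h1, h2, h3⟩ := hADJ n θ hK M u v hAg hWT hWR
  refine θ.trans h1 (hDAT n θ hK M v ?_ u' h2 h3)
  intro P a b Q hW ha hb
  have hd := T.dag M _ v hW M (by omega)
  refine hTGN θ M hWF P a b Q ?_ ?_
  · rcases ha with ha | ha
    · exact Or.inl ha
    · exact Or.inr (fun h => ha ((hd a).1 h))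
  · rcases hb with hb | hb
    · exact Or.inl hb
    · exact Or.inr (fun h => hb ((hd b).1 h))

theorem fin (hWRA : WraStmt) (hLVC : LvcStmt) (hTGN : TgnStmt) (hMSM : MsmStmt) (hADJ : AdjStmt)
    (hDAT : DatStmt) : FinStmt := by
  intro n θ hK m j hj hLv u v hAg hWT hWR
  by_cases hj0 : j = 0
  · subst hj0
    exact core hTGN hADJ hDAT hK hLv hAg hWT (fun k y x hk hd => hWR k y x (Or.inl hk) hd)
  · have hj1 : 1 ≤ j := by omega
    obtain ⟨u', v', hu, hv, hAg', hc, hp, hD⟩ := hMSM n θ hK m j hj1 hj hLv u v hAg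
    obtain ⟨_, hW2, _, _, hT2, _⟩ := hWRA n θ hK
    have hWF : WF (m + 1) θ :=
      hLVC n θ hK m j (m + 1) 0 hj (by omega) (Or.inl (by omega)) hLv
    have key : RR θ u' v' := by
      refine core hTGN hADJ hDAT hK hWF hAg' ?_ ?_
      · intro x
        exact hT2 _ _ (df_congr (hc x).1 (hc x).2).symm (hWT x)
      · intro k y x hk hd
        have hd' : Dp (k + 1) v y := (hD (k + 1) (by omega) y).1 hd
        have h1 := hWR k y x (by omega) hd'
        have h2 := hp y x (hd'.le (by omega))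
        exact hW2 k _ _ (df_congr h2.1 h2.2).symm h1
    exact θ.trans hu (θ.trans key (RR.symm hv))

end Pool.Agent.MWKP.H50
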